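import Pool.Agent.Helper85.SC.Tr
import Pool.Agent.Helper38.SC.C1

/-! The final statement for the example. -/

namespace Pool.Agent.Helper85.SC

open MvPowerSeries Pool.Agent.Helper38.EQ Pool.Agent.Helper38.SC
open Pool.Agent.Helper38.GP hiding star exF exI neg_ex generic_ex good_proj_ex equi_ex
  exF_convergent exF_radical exI_smooth exF_sing

theorem exZ_linear (i : Fin 3) : IsLinear (exZ ℂ i) := by
  refine ⟨Pi.single i.succ 1, ?_⟩
  rw [Finset.sum_eq_single i.succ]
  · rw [Pi.single_eq_same, map_one, one_mul]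
    fin_cases i <;> rfl
  · intro j _ hj
    rw [Pi.single_eq_of_ne hj, map_zero, zero_mul]
  · intro h
    exact absurd (Finset.mem_univ _) h

theorem exZ_convergent (i : Fin 3) : IsConvergent (exZ ℂ i) := by
  obtain ⟨ℓ, hℓ⟩ := exZ_linear i
  rw [hℓ]
  exact linear_convergent ℓ

theorem exF_mem {K : Type} [Field K] : exF K ∈ exI K := by
  have h0 : (X 0 : MvPowerSeries (Fin 4) K) ∈ exI K := Ideal.subset_span (by simp)
  have h2 : (X 2 : MvPowerSeries (Fin 4) K) ∈ exI K := Ideal.subset_span (by simp)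
  have h3 : (X 2 - exL K 0 ^ 2 : MvPowerSeries (Fin 4) K) ∈ exI K :=
    Ideal.sub_mem _ h2 (Ideal.pow_mem_of_mem _ (Ideal.mul_mem_left _ _ h0) 2 (by norm_num))
  exact Ideal.mem_of_dvd _ (Finset.dvd_prod_of_mem _ (Finset.mem_univ 0)) h3

/-- The projection along the `z`-axis is equisingular. -/
theorem equiProj_exZ {K : Type} [Field K] [IsAlgClosed K] [CharZero K] {𝒞 : ProjClass K}
    (h𝒞 : HasLin 𝒞) : EquiProj 𝒞 1 (exF K) (exI K) (exZ K) :=
  ⟨isParams_exZ, permissible_exZ, exD K, Ideal.span {X 0, X 1}, isCrit_ex, equi_exD h𝒞⟩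

theorem equi_convergent : Equi Convergent 2 4 (exF ℂ) (exI ℂ) := by
  obtain ⟨h1, h2, h3⟩ := equiProj_exZ (K := ℂ) hasLin_convergent
  exact ⟨exF_mem, exZ ℂ, exZ_convergent, h1, h2, h3⟩

end Pool.Agent.Helper85.SC
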