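import Pool.Agent.Helper38.SC.C2
import Pool.Agent.Helper38.SC.C3
import Pool.Agent.Helper85.SB.N5

/-! The transversal projections of the example. -/

namespace Pool.Agent.Helper85.SC

open MvPowerSeries Pool.Agent.Helper38.EQ Pool.Agent.Helper38.SC
open Pool.Agent.Helper38.GP hiding star exF exI neg_ex generic_ex good_proj_ex equi_ex
  exF_convergent exF_radical exI_smooth exF_sing

/-- The linear part of a sheet. -/
theorem homPart_sheet {K : Type} [Field K] (i : Fin 4) (v : Fin 4 → K) :
    homPart (X 2 - exL K i ^ 2) 1 v = v 2 := by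
  rw [Pool.Agent.Helper85.R2.homPart_sub, Pool.Agent.Helper85.R2.homPart_X,
    Pool.Agent.Helper85.R2.homPart_eq_zero (f := exL K i ^ 2), sub_zero]
  intro ν hν
  have h1 : exL K i ^ 2 ∈ IsLocalRing.maximalIdeal (MvPowerSeries (Fin 4) K) ^ 2 :=
    Ideal.pow_mem_pow (exL_mem i) 2
  refine (mem_maximalIdeal_pow_iff 2 _).1 h1 ν ?_
  rw [← Finsupp.degree_eq_sum]
  omega

theorem homPart_exF {K : Type} [Field K] [IsAlgClosed K] [CharZero K] (v : Fin 4 → K) :
    (∀ ν : Fin 4 →₀ ℕ, ν.degree < 4 → coeff ν (exF K) = 0) ∧ homPart (exF K) 4 v = v 2 ^ 4 := by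
  have h1 := Pool.Agent.Helper85.SB.homPart_prod (Finset.univ : Finset (Fin 4))
    (fun i => X 2 - exL K i ^ 2) (fun _ => 1) (fun i => ⟨by
      rw [pow_one]
      exact (exL_smooth i).1, (exL_smooth i).2⟩) v
  simp only [Finset.sum_const, Finset.card_univ, Fintype.card_fin, smul_eq_mul, mul_one,
    homPart_sheet, Finset.prod_const] at h1
  exact h1

/-- A transversal projection has a direction with nonzero component `y`. -/
theorem exists_dir {K : Type} [Field K] [IsAlgClosed K] [CharZero K]
    {z : Fin 3 → MvPowerSeries (Fin 4) K} (h : Transversal (exF K) z) :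
    ∃ v : Fin 4 → K, (∀ i, lin (z i) v = 0) ∧ v 2 ≠ 0 := by
  obtain ⟨v, d, hv, hd, hne⟩ := h
  refine ⟨v, hv, ?_⟩
  have hd4 : d = 4 := by
    rcases lt_trichotomy d 4 with h1 | h1 | h1
    · exfalso
      apply hne
      refine Pool.Agent.Helper85.R2.homPart_eq_zero (fun ν hν => ?_) v
      exact (homPart_exF v).1 ν (by omega)
    · exact h1
    · exfalso
      have h2 := (homPart_exF (K := K) (Pi.single 2 1)).2
      rw [Pool.Agent.Helper85.R2.homPart_eq_zero (fun ν hν => hd ν (by omega)),
        Pi.single_eq_same, one_pow] at h2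
      exact zero_ne_one h2
  rw [hd4, (homPart_exF v).2] at hne
  intro h0
  apply hne
  rw [h0, zero_pow (by norm_num)]

/-- No transversal projection is equisingular, in any sense. -/
theorem not_equiProj {K : Type} [Field K] [IsAlgClosed K] [CharZero K] {𝒞 : ProjClass K}
    {z : Fin 3 → MvPowerSeries (Fin 4) K} (h : Transversal (exF K) z) :
    ¬ EquiProj 𝒞 1 (exF K) (exI K) z := by
  obtain ⟨v, hv, hv2⟩ := exists_dir h
  exact neg_ex z hv hv2

end Pool.Agent.Helper85.SC
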